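import Pool.Agent.Helper20.OP.G.Def

/-!
# Bipartite graphs of girth at least six: the model

`κ i j < q` (`i, j < N`): the colour of the cell in row `i` and column `j`.  Vertices: `inl (i, 0)` the row `x i`,
`inl (i, 1)` the column `y i`, `inl (i, 2)` the leaf of `y i`; `inr (i, j, 0)` the cell `a i j`, `inr (i, j, 1)` its companion `z i j`,
`inr (i, j, k)`, `2 ≤ k < q + 3`, leaves: of `a i j` if `k ≤ κ i j + 2` (so `κ i j + 1` leaves), of `z i j` otherwise (`q - κ i j ≥ 1`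
leaves).  Edges: `x i - a i j - y j`, `a i j - z i j`, and the leaves.
-/

set_option autoImplicit false

namespace Pool.Agent.Helper20.OP.G

/-- the vertices -/
abbrev Ver (q N : ℕ) : Type := (Fin N × Fin 3) ⊕ (Fin N × Fin N × Fin (q + 3))

/-- the edges, in one direction -/
def edge (q : ℕ) (κ : ℕ → ℕ → ℕ) (N : ℕ) : Ver q N → Ver q N → Prop
  | Sum.inl (i, s), Sum.inl (j, s') => i = j ∧ s = 1 ∧ s' = 2
  | Sum.inl (i, s), Sum.inr (i', j', k) => k.1 = 0 ∧ ((s = 0 ∧ i = i') ∨ (s = 1 ∧ i = j'))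
  | Sum.inr (i, j, k), Sum.inr (i', j', k') => i = i' ∧ j = j' ∧
      ((k.1 = 0 ∧ k'.1 = 1) ∨ (k.1 = 0 ∧ 2 ≤ k'.1 ∧ k'.1 ≤ κ i j + 2) ∨
        (k.1 = 1 ∧ κ i j + 2 < k'.1))
  | Sum.inr _, Sum.inl _ => False

/-- the graph -/
def gr (q : ℕ) (κ : ℕ → ℕ → ℕ) (N : ℕ) : Str 1 (Ver q N) :=
  fun _ x y => edge q κ N x y ∨ edge q κ N y x

/-- the standing assumptions -/
def Good (q : ℕ) (κ : ℕ → ℕ → ℕ) (N : ℕ) : Prop := 2 ≤ N ∧ ∀ i j, i < N → j < N → κ i j < q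

/-- bipartite graphs without cycles of length four -/
def BipSix (V : Type) (R : Str 1 V) : Prop :=
  (∀ x y, R 0 x y → R 0 y x) ∧ (∃ side : V → Bool, ∀ x y, R 0 x y → side x ≠ side y) ∧
  ∀ a b c d, R 0 a b → R 0 b c → R 0 c d → R 0 d a → a = c ∨ b = d

end Pool.Agent.Helper20.OP.G
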