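import Pool.Agent.Helper20.OP.G.Model

/-!
# Block OP-U3: the model is bipartite and has no cycle of length four

The sides: `{x i, y j, z i j, leaves of a i j}` and `{a i j, leaves of y j, leaves of z i j}`: `side (inl (i, s)) = (s = 2)`,
`side (inr (i, j, k))` is `true` for `k = 0` and for `k ≥ κ i j + 3`.
Cycle `a, b, c, d` with `a ≠ c`, `b ≠ d`: all four vertices have two different neighbours in it, so none is a leaf; `z i j` has
only one non-leaf neighbour, so none is of this type.  So all are `x i`, `y j` or `a i j`, alternating; two different cells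
have at most one common neighbour among the `x i` and `y j`.
(Or: state the neighbours of each vertex and do the case distinction.)
-/

set_option autoImplicit false

namespace Pool.Agent.Helper20.OP.G

variable {q : ℕ} {κ : ℕ → ℕ → ℕ} {N : ℕ}

/-- the sides -/
def sd (q : ℕ) (κ : ℕ → ℕ → ℕ) (N : ℕ) : Ver q N → Bool
  | Sum.inl (_, s) => decide (s = 2)
  | Sum.inr (i, j, k) => decide (k.1 = 0 ∨ κ i j + 3 ≤ k.1)

theorem sd_edge (x y : Ver q N) (h : edge q κ N x y) : sd q κ N x ≠ sd q κ N y := by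
  rcases x with ⟨i, s⟩ | ⟨i, j, k⟩ <;> rcases y with ⟨i', s'⟩ | ⟨i', j', k'⟩
  · obtain ⟨_, rfl, rfl⟩ := h
    simp [sd]
  · obtain ⟨h1, h2⟩ := h
    have h3 : s ≠ 2 := by
      rcases h2 with ⟨rfl, _⟩ | ⟨rfl, _⟩ <;> decide
    simp [sd, h3, h1]
  · exact h.elim
  · obtain ⟨rfl, rfl, h1⟩ := h
    simp only [sd, ne_eq, decide_eq_decide]
    omega

/-- the neighbours of the vertices of the second side -/
theorem nb (b : Ver q N) (hb : sd q κ N b = true) :
    (∃ u, ∀ v, gr q κ N 0 b v → v = u) ∨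
    ∃ i j k₀, k₀.1 = 0 ∧ b = Sum.inr (i, j, k₀) ∧ ∀ v, gr q κ N 0 b v →
      v = Sum.inl (i, 0) ∨ v = Sum.inl (j, 1) ∨ ∃ k, v = Sum.inr (i, j, k) := by
  rcases b with ⟨i, s⟩ | ⟨i, j, k⟩
  · left
    have hs : s = 2 := by simpa [sd] using hb
    subst hs
    refine ⟨Sum.inl (i, 1), fun v hv => ?_⟩
    rcases v with ⟨i', s'⟩ | ⟨i', j', k'⟩
    · rcases hv with ⟨_, h2, _⟩ | ⟨h1, h2, _⟩
      · exact absurd h2 (by decide)
      · subst h1 h2
        rfl
    · rcases hv with ⟨_, ⟨h2, _⟩ | ⟨h2, _⟩⟩ | h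
      · exact absurd h2 (by decide)
      · exact absurd h2 (by decide)
      · exact h.elim
  · have hk : k.1 = 0 ∨ κ i j + 3 ≤ k.1 := by simpa [sd] using hb
    rcases hk with hk | hk
    · right
      refine ⟨i, j, k, hk, rfl, fun v hv => ?_⟩
      rcases v with ⟨i', s'⟩ | ⟨i', j', k'⟩
      · rcases hv with h | ⟨_, ⟨h2, h3⟩ | ⟨h2, h3⟩⟩
        · exact h.elim
        · left
          rw [h2, h3]
        · right; left
          rw [h2, h3]
      · right; right
        rcases hv with ⟨h1, h2, _⟩ | ⟨h1, h2, _⟩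
        · exact ⟨k', by rw [h1, h2]⟩
        · exact ⟨k', by rw [h1, h2]⟩
    · left
      refine ⟨Sum.inr (i, j, ⟨1, by omega⟩), fun v hv => ?_⟩
      rcases v with ⟨i', s'⟩ | ⟨i', j', k'⟩
      · rcases hv with h | ⟨h1, _⟩
        · exact h.elim
        · omega
      · rcases hv with ⟨h1, h2, h3⟩ | ⟨h1, h2, h3⟩
        · subst h1 h2
          omega
        · subst h1 h2
          have h4 : k' = ⟨1, by omega⟩ := by
            apply Fin.ext
            show k'.1 = 1
            omega
          rw [h4]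

theorem two_cells (i j i' j' : Fin N) (v : Ver q N)
    (h : v = Sum.inl (i, 0) ∨ v = Sum.inl (j, 1) ∨ ∃ k, v = Sum.inr (i, j, k))
    (h' : v = Sum.inl (i', 0) ∨ v = Sum.inl (j', 1) ∨ ∃ k, v = Sum.inr (i', j', k)) :
    (i = i' ∧ j = j') ∨ (v = Sum.inl (i, 0) ∧ i = i') ∨ (v = Sum.inl (j, 1) ∧ j = j') := by
  have e0 : ¬ (0 : Fin 3) = 1 := by decide
  have e1 : ¬ (1 : Fin 3) = 0 := by decide
  rcases h with h | h | ⟨k, h⟩ <;> rcases h' with h' | h' | ⟨k', h'⟩ <;> rw [h] at h'
  · right; left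
    exact ⟨h, congrArg Prod.fst (Sum.inl.inj h')⟩
  · exact absurd (congrArg Prod.snd (Sum.inl.inj h')) e0
  · exact absurd h' (by simp)
  · exact absurd (congrArg Prod.snd (Sum.inl.inj h')) e1
  · right; right
    exact ⟨h, congrArg Prod.fst (Sum.inl.inj h')⟩
  · exact absurd h' (by simp)
  · exact absurd h' (by simp)
  · exact absurd h' (by simp)
  · left
    have h2 := Sum.inr.inj h'
    exact ⟨congrArg Prod.fst h2, congrArg (fun t => t.2.1) h2⟩

theorem common (a b c d : Ver q N) (hb : sd q κ N b = true) (hd : sd q κ N d = true)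
    (h1 : gr q κ N 0 b a) (h2 : gr q κ N 0 b c) (h3 : gr q κ N 0 d a) (h4 : gr q κ N 0 d c) :
    a = c ∨ b = d := by
  rcases nb b hb with ⟨u, hu⟩ | ⟨i, j, k, hk, rfl, hn⟩
  · left
    rw [hu a h1, hu c h2]
  rcases nb d hd with ⟨u, hu⟩ | ⟨i', j', k', hk', rfl, hn'⟩
  · left
    rw [hu a h3, hu c h4]
  have hkk : k = k' := Fin.ext (by rw [hk, hk'])
  have ha := two_cells i j i' j' a (hn a h1) (hn' a h3)
  have hc := two_cells i j i' j' c (hn c h2) (hn' c h4)
  rcases ha with ⟨e1, e2⟩ | ⟨ha, e1⟩ | ⟨ha, e2⟩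
  · right
    rw [e1, e2, hkk]
  · rcases hc with ⟨e1', e2'⟩ | ⟨hc, _⟩ | ⟨_, e2'⟩
    · right
      rw [e1', e2', hkk]
    · left
      rw [ha, hc]
    · right
      rw [e1, e2', hkk]
  · rcases hc with ⟨e1', e2'⟩ | ⟨_, e1'⟩ | ⟨hc, _⟩
    · right
      rw [e1', e2', hkk]
    · right
      rw [e1', e2, hkk]
    · left
      rw [ha, hc]

theorem bipSix_gr : BipSix (Ver q N) (gr q κ N) := by
  refine ⟨fun x y h => h.symm, ⟨sd q κ N, fun x y h => ?_⟩, ?_⟩
  · rcases h with h | h
    · exact sd_edge x y h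
    · exact (sd_edge y x h).symm
  · intro a b c d hab hbc hcd hda
    have key : ∀ x y, gr q κ N 0 x y → sd q κ N x ≠ sd q κ N y := by
      intro x y h
      rcases h with h | h
      · exact sd_edge x y h
      · exact (sd_edge y x h).symm
    have k1 := key a b hab
    have k2 := key b c hbc
    have k3 := key c d hcd
    cases hb : sd q κ N b
    · have ha : sd q κ N a = true := by
        cases h : sd q κ N a
        · rw [h, hb] at k1; exact absurd rfl k1
        · rfl
      have hc : sd q κ N c = true := by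
        cases h : sd q κ N c
        · rw [h, hb] at k2; exact absurd rfl k2
        · rfl
      rcases common b a d c ha hc hab hda.symm hbc.symm hcd with h | h
      · exact Or.inr h
      · exact Or.inl h
    · have hd : sd q κ N d = true := by
        cases h : sd q κ N c
        · cases h' : sd q κ N d
          · rw [h, h'] at k3; exact absurd rfl k3
          · rfl
        · rw [h, hb] at k2; exact absurd rfl k2
      exact common a b c d hb hd hab.symm hbc hda hcd.symm

end Pool.Agent.Helper20.OP.G
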