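import Pool.Agent.Helper20.OP.G.Types

/-!
# Block OP-U2: the model satisfies the condition

`z i` is the row `x i` (`inl (i, 0)`), the pair `(i, j)` stands for the cell in row `i` and column `j`, and its tile is
`f i j`; `c (κ i j) = (f i j, i < j, i = j)`.  So `Dg x y` iff `x = x i`, `y = y i`; `Colour κ' (x i) (x j)` iff `κ' = κ i j`; `lt`, `t`
as required.  `own`: `inl (i, s)` is owned by `i`, `inr (i, j, k)` by `(i, j)`; `O₁ v (x i)`: `v` is `x i`, `y i`, or the leaf of `y i`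
(the leaf neighbours of `y i`: `inl (i, 2)`); `O₂ v (x i) (x j)`: `a i j`, `z i j`, or one of their leaves, that is
`v = inr (i, j, k)`.  Numbers: `3` and `q + 3`.
-/

set_option autoImplicit false

namespace Pool.Agent.Helper20.OP.G

open Pool.Agent.Helper29.Prefix

variable {q : ℕ} {κ : ℕ → ℕ → ℕ} {N : ℕ}

theorem card_ver : Nat.card (Ver q N) = (q + 3) * N ^ 2 + 3 * N := by
  rw [Nat.card_eq_fintype_card, Fintype.card_sum, Fintype.card_prod, Fintype.card_prod,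
    Fintype.card_prod]
  simp only [Fintype.card_fin]
  ring

private lemma dg_iff {Γ : Type} (c : Fin q → Γ × Bool × Bool) (h : Good q κ N)
    (f : ℕ → ℕ → Γ)
    (hκ : ∀ i j (hi : i < N) (hj : j < N),
      c ⟨κ i j, h.2 i j hi hj⟩ = (f i j, decide (i < j), decide (i = j))) (x y : Ver q N) :
    Dg c (gr q κ N) x y ↔ ∃ i : Fin N, x = Sum.inl (i, 0) ∧ y = Sum.inl (i, 1) := by
  unfold Dg
  constructor
  · rintro ⟨k, hk, a, hcell, hcol⟩
    obtain ⟨i, j, rfl, rfl, rfl⟩ := (cell_iff h _ _ _).1 hcell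
    have hk' : k.1 = κ i j := (col_iff h _ _ _).1 hcol
    have hk2 : k = ⟨κ i j, h.2 i j i.2 j.2⟩ := Fin.ext hk'
    rw [hk2, hκ i j i.2 j.2] at hk
    have hij : i = j := Fin.ext (by simpa using hk)
    subst hij
    exact ⟨i, rfl, rfl⟩
  · rintro ⟨i, rfl, rfl⟩
    refine ⟨⟨κ i i, h.2 i i i.2 i.2⟩, ?_, Sum.inr (i, i, ⟨0, by omega⟩),
      (cell_iff h _ _ _).2 ⟨i, i, rfl, rfl, rfl⟩, (col_iff h _ _ _).2 rfl⟩
    rw [hκ i i i.2 i.2]
    simp

private lemma colour_iff {Γ : Type} (c : Fin q → Γ × Bool × Bool) (h : Good q κ N)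
    (f : ℕ → ℕ → Γ)
    (hκ : ∀ i j (hi : i < N) (hj : j < N),
      c ⟨κ i j, h.2 i j hi hj⟩ = (f i j, decide (i < j), decide (i = j))) (l : ℕ) (i j : Fin N) :
    Colour c (gr q κ N) l (Sum.inl (i, 0)) (Sum.inl (j, 0)) ↔ l = κ i j := by
  unfold Colour
  constructor
  · rintro ⟨y, a, hd, hcell, hcol⟩
    obtain ⟨j', e1, rfl⟩ := (dg_iff c h f hκ _ _).1 hd
    obtain ⟨i', j'', e2, e3, rfl⟩ := (cell_iff h _ _ _).1 hcell
    simp only [Sum.inl.injEq, Prod.mk.injEq, and_true] at e1 e2 e3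
    subst e1 e2 e3
    exact (col_iff h _ _ _).1 hcol
  · intro hl
    exact ⟨Sum.inl (j, 1), Sum.inr (i, j, ⟨0, by omega⟩), (dg_iff c h f hκ _ _).2 ⟨j, rfl, rfl⟩,
      (cell_iff h _ _ _).2 ⟨i, j, rfl, rfl, rfl⟩, (col_iff h _ _ _).2 hl⟩

private lemma o1_iff {Γ : Type} (c : Fin q → Γ × Bool × Bool) (h : Good q κ N)
    (f : ℕ → ℕ → Γ)
    (hκ : ∀ i j (hi : i < N) (hj : j < N),
      c ⟨κ i j, h.2 i j hi hj⟩ = (f i j, decide (i < j), decide (i = j))) (v x : Ver q N) :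
    O₁ c (gr q κ N) v x ↔ ∃ i : Fin N, x = Sum.inl (i, 0) ∧ ∃ s, v = Sum.inl (i, s) := by
  unfold O₁
  rw [xt_iff h]
  constructor
  · rintro ⟨⟨i, rfl⟩, hv⟩
    refine ⟨i, rfl, ?_⟩
    rcases hv with rfl | hv | ⟨y, hy, hr, hl⟩
    · exact ⟨0, rfl⟩
    · obtain ⟨i', e, rfl⟩ := (dg_iff c h f hκ _ _).1 hv
      simp only [Sum.inl.injEq, Prod.mk.injEq, and_true] at e
      subst e
      exact ⟨1, rfl⟩
    · obtain ⟨i', e, rfl⟩ := (dg_iff c h f hκ _ _).1 hy
      simp only [Sum.inl.injEq, Prod.mk.injEq, and_true] at e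
      subst e
      rcases (leaf_iff h _).1 hl with ⟨j, rfl⟩ | ⟨i', j', k, hk, rfl⟩
      · rcases hr with hr | hr
        · simp only [edge] at hr
          rw [hr.1]
          exact ⟨2, rfl⟩
        · simp only [edge] at hr
          exact absurd hr.2.1 (by decide)
      · exfalso
        rcases hr with hr | hr
        · simp only [edge] at hr
          omega
        · exact hr
  · rintro ⟨i, rfl, s, rfl⟩
    refine ⟨⟨i, rfl⟩, ?_⟩
    fin_cases s
    · left; rfl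
    · right; left
      exact (dg_iff c h f hκ _ _).2 ⟨i, rfl, rfl⟩
    · right; right
      refine ⟨Sum.inl (i, 1), (dg_iff c h f hκ _ _).2 ⟨i, rfl, rfl⟩, ?_, ?_⟩
      · left
        exact ⟨rfl, rfl, rfl⟩
      · exact (leaf_iff h _).2 (Or.inl ⟨i, rfl⟩)

private lemma o2_iff {Γ : Type} (c : Fin q → Γ × Bool × Bool) (h : Good q κ N)
    (f : ℕ → ℕ → Γ)
    (hκ : ∀ i j (hi : i < N) (hj : j < N),
      c ⟨κ i j, h.2 i j hi hj⟩ = (f i j, decide (i < j), decide (i = j))) (v x x' : Ver q N) :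
    O₂ c (gr q κ N) v x x' ↔ ∃ i j : Fin N, x = Sum.inl (i, 0) ∧ x' = Sum.inl (j, 0) ∧
      ∃ k, v = Sum.inr (i, j, k) := by
  unfold O₂
  constructor
  · rintro ⟨y, a, hd, hcell, hv⟩
    obtain ⟨j, rfl, rfl⟩ := (dg_iff c h f hκ _ _).1 hd
    obtain ⟨i, j', rfl, e, rfl⟩ := (cell_iff h _ _ _).1 hcell
    simp only [Sum.inl.injEq, Prod.mk.injEq, and_true] at e
    subst e
    refine ⟨i, j, rfl, rfl, ?_⟩
    have key : ∀ (k : Fin (q + 3)) (w : Ver q N), gr q κ N 0 (Sum.inr (i, j, k)) w →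
        Leaf (gr q κ N) w ∨ Zt (gr q κ N) w → ∃ k', w = Sum.inr (i, j, k') := by
      intro k w hr hw
      have hw' : (∃ i : Fin N, w = Sum.inl (i, 2)) ∨ ∃ (i j : Fin N) (k : Fin (q + 3)),
          w = Sum.inr (i, j, k) := by
        rcases hw with hw | hw
        · rcases (leaf_iff h _).1 hw with ⟨j, rfl⟩ | ⟨i', j', k, hk, rfl⟩
          · exact Or.inl ⟨j, rfl⟩
          · exact Or.inr ⟨i', j', k, rfl⟩
        · obtain ⟨i', j', rfl⟩ := (zt_iff h _).1 hw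
          exact Or.inr ⟨i', j', _, rfl⟩
      rcases hw' with ⟨i', rfl⟩ | ⟨i', j', k', rfl⟩
      · exfalso
        rcases hr with hr | hr
        · exact hr
        · simp only [edge] at hr
          rcases hr.2 with h1 | h1
          · exact absurd h1.1 (by decide)
          · exact absurd h1.1 (by decide)
      · rcases hr with hr | hr
        · simp only [edge] at hr
          rw [← hr.1, ← hr.2.1]
          exact ⟨k', rfl⟩
        · simp only [edge] at hr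
          rw [hr.1, hr.2.1]
          exact ⟨k', rfl⟩
    rcases hv with rfl | ⟨hr, hz⟩ | ⟨hr, hl⟩ | ⟨u, hr, hz, hr', hl⟩
    · exact ⟨_, rfl⟩
    · exact key _ _ hr (Or.inr hz)
    · exact key _ _ hr (Or.inl hl)
    · obtain ⟨k', rfl⟩ := key _ _ hr (Or.inr hz)
      exact key _ _ hr' (Or.inl hl)
  · rintro ⟨i, j, rfl, rfl, k, rfl⟩
    refine ⟨Sum.inl (j, 1), Sum.inr (i, j, ⟨0, by omega⟩), (dg_iff c h f hκ _ _).2 ⟨j, rfl, rfl⟩,
      (cell_iff h _ _ _).2 ⟨i, j, rfl, rfl, rfl⟩, ?_⟩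
    by_cases h0 : k.1 = 0
    · left
      rw [show k = ⟨0, by omega⟩ from Fin.ext h0]
    by_cases h1 : k.1 = 1
    · right; left
      rw [show k = ⟨1, by omega⟩ from Fin.ext h1]
      refine ⟨Or.inl ⟨rfl, rfl, Or.inl ⟨rfl, rfl⟩⟩, (zt_iff h _).2 ⟨i, j, rfl⟩⟩
    by_cases h2 : k.1 ≤ κ i j + 2
    · right; right; left
      exact ⟨Or.inl ⟨rfl, rfl, Or.inr (Or.inl ⟨rfl, by omega, h2⟩)⟩,
        (leaf_iff h _).2 (Or.inr ⟨i, j, k, by omega, rfl⟩)⟩
    · right; right; right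
      exact ⟨Sum.inr (i, j, ⟨1, by omega⟩), Or.inl ⟨rfl, rfl, Or.inl ⟨rfl, rfl⟩⟩,
        (zt_iff h _).2 ⟨i, j, rfl⟩, Or.inl ⟨rfl, rfl, Or.inr (Or.inr ⟨rfl, by omega⟩)⟩,
        (leaf_iff h _).2 (Or.inr ⟨i, j, k, by omega, rfl⟩)⟩

theorem cond_gr {Γ : Type} {W : Wang Γ} (c : Fin q → Γ × Bool × Bool) (h : Good q κ N)
    (f : ℕ → ℕ → Γ)
    (hf : (∀ x y, x + 1 < N → y < N → W.R (f x y) (f (x + 1) y)) ∧
      (∀ x y, x < N → y + 1 < N → W.U (f x y) (f x (y + 1))) ∧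
      (∀ y, y < N → W.l (f 0 y)) ∧ (∀ y, y < N → W.r (f (N - 1) y)) ∧
      (∀ x, x < N → W.b (f x 0)) ∧ (∀ x, x < N → W.t (f x (N - 1))) ∧ W.c (f 0 0))
    (hκ : ∀ i j (hi : i < N) (hj : j < N),
      c ⟨κ i j, h.2 i j hi hj⟩ = (f i j, decide (i < j), decide (i = j))) :
    Cond c W (gr q κ N) := by
  have hN : 2 ≤ N := h.1
  let z : ℕ → Ver q N := fun i => if hi : i < N then Sum.inl (⟨i, hi⟩, 0) else
    Sum.inl (⟨0, by omega⟩, 0)
  have hz : ∀ i (hi : i < N), z i = Sum.inl (⟨i, hi⟩, 0) := fun i hi => dif_pos hi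
  let own : Ver q N → Option (ℕ ⊕ ℕ × ℕ) := fun v => match v with
    | Sum.inl (i, _) => some (Sum.inl i.1)
    | Sum.inr (i, j, _) => some (Sum.inr (i.1, j.1))
  have hcol : ∀ (k : Fin q) (i j : ℕ) (hi : i < N) (hj : j < N),
      Colour c (gr q κ N) k (z i) (z j) ↔ k = ⟨κ i j, h.2 i j hi hj⟩ := by
    intro k i j hi hj
    rw [hz i hi, hz j hj, colour_iff c h f hκ]
    exact ⟨fun e => Fin.ext e, fun e => congrArg Fin.val e⟩
  refine SqStd.code (N := N) (f := f) (z := z) (own := own) ⟨hN, hf.1, hf.2.1, hf.2.2.1,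
    hf.2.2.2.1, hf.2.2.2.2.1, hf.2.2.2.2.2.1, hf.2.2.2.2.2.2, ?_, ?_, ?_, ?_, ?_, ?_, ?_, ?_, ?_,
    ?_, ?_⟩
  · intro i j hi hj hij
    rw [hz i hi, hz j hj] at hij
    simpa using hij
  · intro x
    rw [xt_iff h]
    constructor
    · rintro ⟨i, rfl⟩
      exact ⟨i.1, i.2, (hz i.1 i.2).symm⟩
    · rintro ⟨i, hi, rfl⟩
      exact ⟨⟨i, hi⟩, hz i hi⟩
  · intro i j hi hj
    unfold lt
    constructor
    · rintro ⟨k, hk, hc⟩
      rw [(hcol k i j hi hj).1 hc, hκ i j hi hj] at hk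
      simpa using hk
    · intro hij
      refine ⟨⟨κ i j, h.2 i j hi hj⟩, ?_, (hcol _ i j hi hj).2 rfl⟩
      rw [hκ i j hi hj]
      simpa using hij
  · intro i j γ hi hj
    unfold t
    constructor
    · rintro ⟨k, hk, hc⟩
      rw [(hcol k i j hi hj).1 hc, hκ i j hi hj] at hk
      exact hk.symm
    · rintro rfl
      refine ⟨⟨κ i j, h.2 i j hi hj⟩, ?_, (hcol _ i j hi hj).2 rfl⟩
      rw [hκ i j hi hj]
  · intro v x
    rw [o1_iff c h f hκ]
    constructor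
    · rintro ⟨i, rfl, s, rfl⟩
      exact ⟨i.1, i.2, rfl, (hz i.1 i.2).symm⟩
    · rintro ⟨i, hi, ho, rfl⟩
      refine ⟨⟨i, hi⟩, hz i hi, ?_⟩
      rcases v with ⟨j, s⟩ | ⟨j, j', k⟩
      · have : j.1 = i := by simpa [own] using ho
        subst this
        exact ⟨s, rfl⟩
      · simp [own] at ho
  · intro v x y
    rw [o2_iff c h f hκ]
    constructor
    · rintro ⟨i, j, rfl, rfl, k, rfl⟩
      exact ⟨i.1, j.1, i.2, j.2, rfl, (hz i.1 i.2).symm, (hz j.1 j.2).symm⟩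
    · rintro ⟨i, j, hi, hj, ho, rfl, rfl⟩
      refine ⟨⟨i, hi⟩, ⟨j, hj⟩, hz i hi, hz j hj, ?_⟩
      rcases v with ⟨j', s⟩ | ⟨i', j', k⟩
      · simp [own] at ho
      · have h1 : i'.1 = i ∧ j'.1 = j := by simpa [own] using ho
        obtain ⟨h1, h2⟩ := h1
        subst h1 h2
        exact ⟨k, rfl⟩
  · exact fun v hv => hv.elim
  · intro v _
    rcases v with ⟨i, s⟩ | ⟨i, j, k⟩
    · exact Or.inl ⟨i.1, i.2, rfl⟩
    · exact Or.inr ⟨i.1, j.1, i.2, j.2, rfl⟩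
  · intro i hi
    have e : {v // own v = some (Sum.inl i)} ≃ Fin 3 :=
      { toFun := fun v => match v with
          | ⟨Sum.inl (_, s), _⟩ => s
          | ⟨Sum.inr _, _⟩ => 0
        invFun := fun s => ⟨Sum.inl (⟨i, hi⟩, s), rfl⟩
        left_inv := by
          rintro ⟨⟨j, s⟩ | ⟨j, j', k⟩, ho⟩
          · have : j.1 = i := by simpa [own] using ho
            subst this
            rfl
          · simp [own] at ho
        right_inv := fun s => rfl }
    rw [Nat.card_congr e]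
    simp
  · intro i j hi hj
    have e : {v // own v = some (Sum.inr (i, j))} ≃ Fin (q + 3) :=
      { toFun := fun v => match v with
          | ⟨Sum.inl _, _⟩ => 0
          | ⟨Sum.inr (_, _, k), _⟩ => k
        invFun := fun k => ⟨Sum.inr (⟨i, hi⟩, ⟨j, hj⟩, k), rfl⟩
        left_inv := by
          rintro ⟨⟨j', s⟩ | ⟨i', j', k⟩, ho⟩
          · simp [own] at ho
          · have h1 : i'.1 = i ∧ j'.1 = j := by simpa [own] using ho
            obtain ⟨h1, h2⟩ := h1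
            subst h1 h2
            rfl
        right_inv := fun s => rfl }
    rw [Nat.card_congr e]
    simp
  · simp

end Pool.Agent.Helper20.OP.G
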