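import Pool.Agent.Helper20.OP.SqEnc

/-!
# Bipartite graphs of girth at least six: the relations (and block OP-U0: they are definable)

`R 0` is the edge relation.  Vertex types: `Leaf` (exactly one neighbour), `Zt` (exactly one non-leaf neighbour and at
least one leaf neighbour), `At` (cells: the others with a neighbour of type `Zt`), `Xt` (rows: the remaining vertices without leaf
neighbours), `Yt` (columns: the remaining vertices with a leaf neighbour).  A cell `a` with exactly `κ + 1` leaf neighbours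
has the colour `κ < q`; `c κ = (tile, less?, diagonal?)`.  `c` is the same in all files.
-/

set_option autoImplicit false

namespace Pool.Agent.Helper20.OP.G

open Pool.Agent.Helper29.Prefix

variable {V : Type}

def Leaf (R : Str 1 V) (v : V) : Prop := ∃ u, R 0 v u ∧ ∀ w, R 0 v w → w = u

def Zt (R : Str 1 V) (v : V) : Prop :=
  (∃ u, R 0 v u ∧ Leaf R u) ∧ ∃ u, (R 0 v u ∧ ¬ Leaf R u) ∧ ∀ w, R 0 v w → ¬ Leaf R w → w = u

def At (R : Str 1 V) (v : V) : Prop := ¬ Leaf R v ∧ ¬ Zt R v ∧ ∃ u, R 0 v u ∧ Zt R u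

def Xt (R : Str 1 V) (v : V) : Prop :=
  ¬ Leaf R v ∧ ¬ Zt R v ∧ ¬ At R v ∧ ∀ u, R 0 v u → ¬ Leaf R u

def Yt (R : Str 1 V) (v : V) : Prop :=
  ¬ Leaf R v ∧ ¬ Zt R v ∧ ¬ At R v ∧ ∃ u, R 0 v u ∧ Leaf R u

/-- `a` is the cell of the row `x` and the column `y` -/
def Cell (R : Str 1 V) (x y a : V) : Prop := Xt R x ∧ Yt R y ∧ At R a ∧ R 0 x a ∧ R 0 y a

/-- the vertex `a` has exactly `κ + 1` leaf neighbours -/
def Col (R : Str 1 V) (κ : ℕ) (a : V) : Prop := Exactly (κ + 1) (fun u => R 0 a u ∧ Leaf R u)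

variable {Γ : Type} {q : ℕ} (c : Fin q → Γ × Bool × Bool)

/-- the row `x` and the column `y` have the same number -/
def Dg (R : Str 1 V) (x y : V) : Prop := ∃ κ : Fin q, (c κ).2.2 = true ∧ ∃ a, Cell R x y a ∧ Col R κ a

/-- the colour of the cell in row `x` and in the column of the number of `x'` is `κ` -/
def Colour (R : Str 1 V) (κ : ℕ) (x x' : V) : Prop :=
  ∃ y a, Dg c R x' y ∧ Cell R x y a ∧ Col R κ a

/-- the order of the rows -/
def lt (R : Str 1 V) (x x' : V) : Prop := ∃ κ : Fin q, (c κ).2.1 = true ∧ Colour c R κ x x'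

/-- the tile of a pair -/
def t (R : Str 1 V) (x x' : V) (γ : Γ) : Prop := ∃ κ : Fin q, (c κ).1 = γ ∧ Colour c R κ x x'

/-- `v` is owned by the number `x` -/
def O₁ (R : Str 1 V) (v x : V) : Prop :=
  Xt R x ∧ (v = x ∨ Dg c R x v ∨ ∃ y, Dg c R x y ∧ R 0 y v ∧ Leaf R v)

/-- `v` is owned by the pair `(x, x')` -/
def O₂ (R : Str 1 V) (v x x' : V) : Prop :=
  ∃ y a, Dg c R x' y ∧ Cell R x y a ∧ (v = a ∨ (R 0 a v ∧ Zt R v) ∨ (R 0 a v ∧ Leaf R v) ∨
    ∃ u, R 0 a u ∧ Zt R u ∧ R 0 u v ∧ Leaf R v)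

/-- the condition on a graph -/
def Cond (W : Wang Γ) (R : Str 1 V) : Prop :=
  SqCode W 3 (q + 3) 0 (Xt R) (lt c R) (t c R) (O₁ c R) (O₂ c R) (fun _ => False)

private lemma def_Leaf : Def1 1 (fun _ R v => Leaf R v) :=
  Def.ex (Def.and (Def.rel _ _ _) (Def.all (Def.imp (Def.rel _ _ _) (Def.eq _ _))))

private lemma def_Zt : Def1 1 (fun _ R v => Zt R v) :=
  Def.and (Def.ex (Def.and (Def.rel _ _ _) (def_Leaf.app _)))
    (Def.ex (Def.and (Def.and (Def.rel _ _ _) (def_Leaf.app _).not)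
      (Def.all (Def.imp (Def.rel _ _ _) (Def.imp (def_Leaf.app _).not (Def.eq _ _))))))

private lemma def_At : Def1 1 (fun _ R v => At R v) :=
  Def.and (def_Leaf.app _).not (Def.and (def_Zt.app _).not
    (Def.ex (Def.and (Def.rel _ _ _) (def_Zt.app _))))

private lemma def_Xt : Def1 1 (fun _ R v => Xt R v) :=
  Def.and (def_Leaf.app _).not (Def.and (def_Zt.app _).not (Def.and (def_At.app _).not
    (Def.all (Def.imp (Def.rel _ _ _) (def_Leaf.app _).not))))

private lemma def_Yt : Def1 1 (fun _ R v => Yt R v) :=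
  Def.and (def_Leaf.app _).not (Def.and (def_Zt.app _).not (Def.and (def_At.app _).not
    (Def.ex (Def.and (Def.rel _ _ _) (def_Leaf.app _)))))

private lemma def_Cell : Def3 1 (fun _ R x y a => Cell R x y a) :=
  Def.and (def_Xt.app _) (Def.and (def_Yt.app _) (Def.and (def_At.app _)
    (Def.and (Def.rel _ _ _) (Def.rel _ _ _))))

private lemma def_Col (κ : ℕ) : Def1 1 (fun _ R a => Col R κ a) :=
  Def.exactly (κ + 1) (Def.and (Def.rel _ _ _) (def_Leaf.app _))

private lemma def_Dg : Def2 1 (fun _ R x y => Dg c R x y) :=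
  Def.ex_fin (fun κ => Def.and (Def.const _) (Def.ex (Def.and (def_Cell.app _ _ _)
    ((def_Col κ).app _))))

private lemma def_Colour (κ : ℕ) : Def2 1 (fun _ R x x' => Colour c R κ x x') :=
  Def.ex (Def.ex (Def.and ((def_Dg c).app _ _) (Def.and (def_Cell.app _ _ _)
    ((def_Col κ).app _))))

private lemma def_lt : Def2 1 (fun _ R x x' => lt c R x x') :=
  Def.ex_fin (fun κ => Def.and (Def.const _) ((def_Colour c κ).app _ _))

private lemma def_t (γ : Γ) : Def2 1 (fun _ R x x' => t c R x x' γ) :=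
  Def.ex_fin (fun κ => Def.and (Def.const _) ((def_Colour c κ).app _ _))

private lemma def_O₁ : Def2 1 (fun _ R v x => O₁ c R v x) :=
  Def.and (def_Xt.app _) (Def.or (Def.eq _ _) (Def.or ((def_Dg c).app _ _)
    (Def.ex (Def.and ((def_Dg c).app _ _) (Def.and (Def.rel _ _ _) (def_Leaf.app _))))))

private lemma def_O₂ : Def3 1 (fun _ R v x x' => O₂ c R v x x') :=
  Def.ex (Def.ex (Def.and ((def_Dg c).app _ _) (Def.and (def_Cell.app _ _ _)
    (Def.or (Def.eq _ _) (Def.or (Def.and (Def.rel _ _ _) (def_Zt.app _))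
      (Def.or (Def.and (Def.rel _ _ _) (def_Leaf.app _))
        (Def.ex (Def.and (Def.rel _ _ _) (Def.and (def_Zt.app _)
          (Def.and (Def.rel _ _ _) (def_Leaf.app _)))))))))))

theorem def_cond [Finite Γ] (W : Wang Γ) : Def0 1 (fun _ R => Cond c W R) :=
  def_sqCode W 3 (q + 3) 0 def_Xt (def_lt c) (def_t c) (def_O₁ c) (def_O₂ c) (Def.const False)

end Pool.Agent.Helper20.OP.G
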