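import Pool.Agent.Helper20.OP.G.Model

/-!
# Block OP-U1: the types of the vertices of the model

The neighbours: `x i`: all `a i j`, `j < N`.  `y j`: all `a i j`, `i < N`, and its leaf.  `a i j`: `x i`, `y j`, `z i j` and `κ i j + 1 ≥ 1`
leaves.  `z i j`: `a i j` and `q - κ i j ≥ 1` leaves.  Leaves: one neighbour.
So (`N ≥ 2`): `leaf_iff`: `x i` has two neighbours `a i 0`, `a i 1`, etc.; `zt_iff`: `z i j` has exactly one non-leaf neighbour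
`a i j`, and a leaf (`k = q + 2 > κ i j + 2`); `x i` has no leaf neighbour; `y j` has the two non-leaf neighbours `a 0 j`, `a 1 j`;
`a i j` has the non-leaf neighbours `x i`, `y j`.  `at_iff`: `a i j` is adjacent to `z i j`; `x i`, `y j` have no neighbour of type `Zt`.
`col_iff`: the leaf neighbours of `a i j` are the `(i, j, k)` with `2 ≤ k ≤ κ i j + 2`: exactly `κ i j + 1`; use `exactly_iff` or an explicit
bijection with `Fin (κ i j + 1)`.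
-/

set_option autoImplicit false

namespace Pool.Agent.Helper20.OP.G

variable {q : ℕ} {κ : ℕ → ℕ → ℕ} {N : ℕ}

/-- `x i` -/
def vx (q : ℕ) {N : ℕ} (i : Fin N) : Ver q N := Sum.inl (i, 0)
/-- `y i` -/
def vy (q : ℕ) {N : ℕ} (i : Fin N) : Ver q N := Sum.inl (i, 1)
/-- the leaf of `y i` -/
def vl (q : ℕ) {N : ℕ} (i : Fin N) : Ver q N := Sum.inl (i, 2)
/-- `a i j` -/
def va (q : ℕ) {N : ℕ} (i j : Fin N) : Ver q N := Sum.inr (i, j, ⟨0, by omega⟩)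
/-- `z i j` -/
def vz (q : ℕ) {N : ℕ} (i j : Fin N) : Ver q N := Sum.inr (i, j, ⟨1, by omega⟩)
/-- the leaves of `a i j` and `z i j` -/
def vf {q N : ℕ} (i j : Fin N) (k : Fin (q + 3)) : Ver q N := Sum.inr (i, j, k)

lemma ver_cases (v : Ver q N) : (∃ i, v = vx q i) ∨ (∃ i, v = vy q i) ∨ (∃ i, v = vl q i) ∨
    (∃ i j, v = va q i j) ∨ (∃ i j, v = vz q i j) ∨ ∃ i j k, 2 ≤ k.1 ∧ v = vf i j k := by
  rcases v with ⟨i, s⟩ | ⟨i, j, k⟩
  · fin_cases s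
    · exact Or.inl ⟨i, rfl⟩
    · exact Or.inr (Or.inl ⟨i, rfl⟩)
    · exact Or.inr (Or.inr (Or.inl ⟨i, rfl⟩))
  · rcases Nat.lt_or_ge k.1 2 with h | h
    · interval_cases hk : k.1
      · exact Or.inr (Or.inr (Or.inr (Or.inl ⟨i, j, by
          have : k = ⟨0, by omega⟩ := Fin.ext hk
          rw [this]; rfl⟩)))
      · exact Or.inr (Or.inr (Or.inr (Or.inr (Or.inl ⟨i, j, by
          have : k = ⟨1, by omega⟩ := Fin.ext hk
          rw [this]; rfl⟩))))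
    · exact Or.inr (Or.inr (Or.inr (Or.inr (Or.inr ⟨i, j, k, h, rfl⟩))))

lemma adj_vx (i : Fin N) (u : Ver q N) : gr q κ N 0 (vx q i) u ↔ ∃ j, u = va q i j := by
  rcases u with ⟨i', s⟩ | ⟨i', j', k⟩
  · simp [gr, edge, vx, va]
  · simp only [gr, edge, vx, va, Sum.inr.injEq, Prod.mk.injEq, or_false, Fin.ext_iff]
    constructor
    · rintro ⟨h1, ⟨_, h3⟩ | ⟨h2, _⟩⟩
      · exact ⟨j', h3.symm, rfl, h1⟩
      · simp at h2
    · rintro ⟨j, h1, h2, h3⟩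
      exact ⟨h3, Or.inl ⟨trivial, h1.symm⟩⟩

lemma adj_vy (i : Fin N) (u : Ver q N) : gr q κ N 0 (vy q i) u ↔
    (∃ j, u = va q j i) ∨ u = vl q i := by
  rcases u with ⟨i', s⟩ | ⟨i', j', k⟩
  · simp only [gr, edge, vy, va, vl, Sum.inl.injEq, Prod.mk.injEq, Fin.ext_iff, reduceCtorEq,
      exists_false, false_or]
    constructor
    · rintro (⟨h1, _, h3⟩ | ⟨_, _, h3⟩)
      · exact ⟨h1.symm, h3⟩
      · simp at h3
    · rintro ⟨h1, h2⟩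
      exact Or.inl ⟨h1.symm, trivial, h2⟩
  · simp only [gr, edge, vy, va, vl, Sum.inr.injEq, Prod.mk.injEq, or_false, Fin.ext_iff,
      reduceCtorEq]
    constructor
    · rintro ⟨h1, ⟨h2, _⟩ | ⟨_, h3⟩⟩
      · simp at h2
      · exact ⟨i', rfl, h3.symm, h1⟩
    · rintro ⟨j, h1, h2, h3⟩
      exact ⟨h3, Or.inr ⟨trivial, h2.symm⟩⟩

lemma adj_vl (i : Fin N) (u : Ver q N) : gr q κ N 0 (vl q i) u ↔ u = vy q i := by
  rcases u with ⟨i', s⟩ | ⟨i', j', k⟩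
  · simp only [gr, edge, vy, vl, Sum.inl.injEq, Prod.mk.injEq, Fin.ext_iff]
    constructor
    · rintro (⟨_, h2, _⟩ | ⟨h1, h2, _⟩)
      · simp at h2
      · exact ⟨h1, h2⟩
    · rintro ⟨h1, h2⟩
      exact Or.inr ⟨h1, h2, trivial⟩
  · simp [gr, edge, vl, vy]

lemma adj_va (i j : Fin N) (u : Ver q N) : gr q κ N 0 (va q i j) u ↔
    u = vx q i ∨ u = vy q j ∨ u = vz q i j ∨
      ∃ k : Fin (q + 3), 2 ≤ k.1 ∧ k.1 ≤ κ i j + 2 ∧ u = vf i j k := by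
  rcases u with ⟨i', s⟩ | ⟨i', j', k⟩
  · simp only [gr, edge, vx, vy, vz, vf, va, Sum.inl.injEq, Prod.mk.injEq, Fin.ext_iff,
      reduceCtorEq, and_false, exists_false, or_false, false_or, true_and]
    constructor
    · rintro (⟨h1, h2⟩ | ⟨h1, h2⟩)
      · exact Or.inl ⟨h2, h1⟩
      · exact Or.inr ⟨h2, h1⟩
    · rintro (⟨h1, h2⟩ | ⟨h1, h2⟩)
      · exact Or.inl ⟨h2, h1⟩
      · exact Or.inr ⟨h2, h1⟩
  · simp only [gr, edge, vx, vy, vz, vf, va, Sum.inr.injEq, Prod.mk.injEq, Fin.ext_iff,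
      reduceCtorEq, false_or]
    constructor
    · rintro (⟨h1, h2, h3⟩ | ⟨h1, h2, h3⟩)
      · rcases h3 with ⟨_, h3⟩ | ⟨_, h3, h4⟩ | ⟨h3, _⟩
        · exact Or.inl ⟨h1.symm, h2.symm, h3⟩
        · exact Or.inr ⟨k, h3, h4, h1.symm, h2.symm, rfl⟩
        · simp at h3
      · rcases h3 with ⟨_, h3⟩ | ⟨_, h3, h4⟩ | ⟨_, h3⟩
        · simp at h3
        · simp at h3
        · simp at h3
    · rintro (⟨h1, h2, h3⟩ | ⟨k', h3, h4, h1, h2, h5⟩)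
      · exact Or.inl ⟨h1.symm, h2.symm, Or.inl ⟨trivial, h3⟩⟩
      · exact Or.inl ⟨h1.symm, h2.symm, Or.inr (Or.inl ⟨trivial, by omega, by omega⟩)⟩

lemma adj_vz (i j : Fin N) (u : Ver q N) : gr q κ N 0 (vz q i j) u ↔
    u = va q i j ∨ ∃ k : Fin (q + 3), κ i j + 2 < k.1 ∧ u = vf i j k := by
  rcases u with ⟨i', s⟩ | ⟨i', j', k⟩
  · simp [gr, edge, vz, va, vf]
  · simp only [gr, edge, vz, vf, va, Sum.inr.injEq, Prod.mk.injEq, Fin.ext_iff]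
    constructor
    · rintro (⟨h1, h2, h3⟩ | ⟨h1, h2, h3⟩)
      · rcases h3 with ⟨h3, _⟩ | ⟨h3, _⟩ | ⟨_, h3⟩
        · simp at h3
        · simp at h3
        · exact Or.inr ⟨k, h3, h1.symm, h2.symm, rfl⟩
      · rcases h3 with ⟨h3, _⟩ | ⟨_, h3, h4⟩ | ⟨_, h3⟩
        · exact Or.inl ⟨h1, h2, h3⟩
        · simp at h3
        · simp at h3
    · rintro (⟨h1, h2, h3⟩ | ⟨k', h3, h1, h2, h5⟩)
      · exact Or.inr ⟨h1, h2, Or.inl ⟨h3, trivial⟩⟩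
      · exact Or.inl ⟨h1.symm, h2.symm, Or.inr (Or.inr ⟨trivial, by omega⟩)⟩

lemma adj_vf (i j : Fin N) (k : Fin (q + 3)) (hk : 2 ≤ k.1) (u : Ver q N) :
    gr q κ N 0 (vf i j k) u ↔ (k.1 ≤ κ i j + 2 ∧ u = va q i j) ∨ (κ i j + 2 < k.1 ∧ u = vz q i j) := by
  rcases u with ⟨i', s⟩ | ⟨i', j', k'⟩
  · simp only [gr, edge, vz, vf, va, reduceCtorEq, and_false, or_false, false_or, iff_false]
    rintro ⟨h, _⟩
    omega
  · simp only [gr, edge, vz, vf, va, Sum.inr.injEq, Prod.mk.injEq, Fin.ext_iff]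
    constructor
    · rintro (⟨h1, h2, h3⟩ | ⟨h1, h2, h3⟩)
      · omega
      · have e1 : i' = i := Fin.ext h1
        have e2 : j' = j := Fin.ext h2
        subst e1 e2
        rcases h3 with ⟨h3, h4⟩ | ⟨h3, h4, h5⟩ | ⟨h3, h4⟩
        · omega
        · exact Or.inl ⟨h5, rfl, rfl, h3⟩
        · exact Or.inr ⟨h4, rfl, rfl, h3⟩
    · rintro (⟨h0, h1, h2, h3⟩ | ⟨h0, h1, h2, h3⟩)
      · have e1 : i' = i := Fin.ext h1
        have e2 : j' = j := Fin.ext h2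
        subst e1 e2
        exact Or.inr ⟨rfl, rfl, Or.inr (Or.inl ⟨h3, hk, h0⟩)⟩
      · have e1 : i' = i := Fin.ext h1
        have e2 : j' = j := Fin.ext h2
        subst e1 e2
        exact Or.inr ⟨rfl, rfl, Or.inr (Or.inr ⟨h3, h0⟩)⟩

/-! ### Leaves -/

lemma not_leaf_of {v u w : Ver q N} (hu : gr q κ N 0 v u) (hw : gr q κ N 0 v w) (h : u ≠ w) :
    ¬ Leaf (gr q κ N) v := by
  rintro ⟨s, _, hs⟩
  exact h ((hs u hu).trans (hs w hw).symm)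

lemma not_leaf_vx (h : Good q κ N) (i : Fin N) : ¬ Leaf (gr q κ N) (vx q i) := by
  have hN := h.1
  refine not_leaf_of (u := va q i ⟨0, by omega⟩) (w := va q i ⟨1, by omega⟩) ((adj_vx _ _).2 ⟨_, rfl⟩)
    ((adj_vx _ _).2 ⟨_, rfl⟩) ?_
  simp [va]

lemma not_leaf_vy (i : Fin N) : ¬ Leaf (gr q κ N) (vy q i) := by
  refine not_leaf_of (u := va q i i) (w := vl q i) ((adj_vy _ _).2 (Or.inl ⟨_, rfl⟩))
    ((adj_vy _ _).2 (Or.inr rfl)) ?_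
  simp [va, vl]

lemma leaf_vl (i : Fin N) : Leaf (gr q κ N) (vl q i) :=
  ⟨vy q i, (adj_vl _ _).2 rfl, fun w hw => (adj_vl _ _).1 hw⟩

lemma not_leaf_va (i j : Fin N) : ¬ Leaf (gr q κ N) (va q i j) := by
  refine not_leaf_of (u := vx q i) (w := vy q j) ((adj_va _ _ _).2 (Or.inl rfl))
    ((adj_va _ _ _).2 (Or.inr (Or.inl rfl))) ?_
  simp [vx, vy]

lemma not_leaf_vz (h : Good q κ N) (i j : Fin N) : ¬ Leaf (gr q κ N) (vz q i j) := by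
  have h1 := h.2 i j i.2 j.2
  refine not_leaf_of (u := va q i j) (w := vf i j ⟨q + 2, by omega⟩) ((adj_vz _ _ _).2 (Or.inl rfl))
    ((adj_vz _ _ _).2 (Or.inr ⟨_, by simp only; omega, rfl⟩)) ?_
  simp [va, vf]

lemma leaf_vf (i j : Fin N) (k : Fin (q + 3)) (hk : 2 ≤ k.1) : Leaf (gr q κ N) (vf i j k) := by
  rcases Nat.lt_or_ge (κ i j + 2) k.1 with h | h
  · refine ⟨vz q i j, (adj_vf _ _ _ hk _).2 (Or.inr ⟨h, rfl⟩), fun w hw => ?_⟩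
    rcases (adj_vf _ _ _ hk _).1 hw with h' | h'
    · omega
    · exact h'.2
  · refine ⟨va q i j, (adj_vf _ _ _ hk _).2 (Or.inl ⟨h, rfl⟩), fun w hw => ?_⟩
    rcases (adj_vf _ _ _ hk _).1 hw with h' | h'
    · exact h'.2
    · omega

theorem leaf_iff (h : Good q κ N) (v : Ver q N) : Leaf (gr q κ N) v ↔
    (∃ i : Fin N, v = Sum.inl (i, 2)) ∨
    ∃ (i j : Fin N) (k : Fin (q + 3)), 2 ≤ k.1 ∧ v = Sum.inr (i, j, k) := by
  constructor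
  · intro hv
    rcases ver_cases v with ⟨i, rfl⟩ | ⟨i, rfl⟩ | ⟨i, rfl⟩ | ⟨i, j, rfl⟩ | ⟨i, j, rfl⟩ | ⟨i, j, k, hk, rfl⟩
    · exact (not_leaf_vx h i hv).elim
    · exact (not_leaf_vy i hv).elim
    · exact Or.inl ⟨i, rfl⟩
    · exact (not_leaf_va i j hv).elim
    · exact (not_leaf_vz h i j hv).elim
    · exact Or.inr ⟨i, j, k, hk, rfl⟩
  · rintro (⟨i, rfl⟩ | ⟨i, j, k, hk, rfl⟩)
    · exact leaf_vl i
    · exact leaf_vf i j k hk

/-! ### Companions -/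

lemma zt_vz (h : Good q κ N) (i j : Fin N) : Zt (gr q κ N) (vz q i j) := by
  have h1 := h.2 i j i.2 j.2
  refine ⟨⟨vf i j ⟨q + 2, by omega⟩, (adj_vz _ _ _).2 (Or.inr ⟨_, by simp only; omega, rfl⟩),
    leaf_vf _ _ _ (by simp)⟩, va q i j, ⟨(adj_vz _ _ _).2 (Or.inl rfl), not_leaf_va i j⟩, ?_⟩
  intro w hw hl
  rcases (adj_vz _ _ _).1 hw with h2 | ⟨k, hk, rfl⟩
  · exact h2
  · exact (hl (leaf_vf _ _ _ (by omega))).elim

lemma not_zt_of {v u w : Ver q N} (hu : gr q κ N 0 v u) (hw : gr q κ N 0 v w) (h : u ≠ w)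
    (hu' : ¬ Leaf (gr q κ N) u) (hw' : ¬ Leaf (gr q κ N) w) : ¬ Zt (gr q κ N) v := by
  rintro ⟨_, s, _, hs⟩
  exact h ((hs u hu hu').trans (hs w hw hw').symm)

lemma not_zt_vx (i : Fin N) : ¬ Zt (gr q κ N) (vx q i) := by
  rintro ⟨⟨u, hu, hl⟩, _⟩
  obtain ⟨j, rfl⟩ := (adj_vx _ _).1 hu
  exact not_leaf_va i j hl

lemma not_zt_vy (h : Good q κ N) (i : Fin N) : ¬ Zt (gr q κ N) (vy q i) := by
  have hN := h.1
  refine not_zt_of (u := va q ⟨0, by omega⟩ i) (w := va q ⟨1, by omega⟩ i)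
    ((adj_vy _ _).2 (Or.inl ⟨_, rfl⟩)) ((adj_vy _ _).2 (Or.inl ⟨_, rfl⟩)) ?_
    (not_leaf_va _ _) (not_leaf_va _ _)
  simp [va]

lemma not_zt_vl (i : Fin N) : ¬ Zt (gr q κ N) (vl q i) := by
  rintro ⟨⟨u, hu, hl⟩, _⟩
  rw [adj_vl] at hu
  rw [hu] at hl
  exact not_leaf_vy i hl

lemma not_zt_va (h : Good q κ N) (i j : Fin N) : ¬ Zt (gr q κ N) (va q i j) := by
  refine not_zt_of (u := vx q i) (w := vy q j) ((adj_va _ _ _).2 (Or.inl rfl))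
    ((adj_va _ _ _).2 (Or.inr (Or.inl rfl))) ?_ (not_leaf_vx h i) (not_leaf_vy j)
  simp [vx, vy]

lemma not_zt_vf (h : Good q κ N) (i j : Fin N) (k : Fin (q + 3)) (hk : 2 ≤ k.1) :
    ¬ Zt (gr q κ N) (vf i j k) := by
  rintro ⟨⟨u, hu, hl⟩, _⟩
  rcases (adj_vf _ _ _ hk _).1 hu with ⟨_, rfl⟩ | ⟨_, rfl⟩
  · exact not_leaf_va i j hl
  · exact not_leaf_vz h i j hl

theorem zt_iff (h : Good q κ N) (v : Ver q N) : Zt (gr q κ N) v ↔
    ∃ i j : Fin N, v = Sum.inr (i, j, ⟨1, by omega⟩) := by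
  constructor
  · intro hv
    rcases ver_cases v with ⟨i, rfl⟩ | ⟨i, rfl⟩ | ⟨i, rfl⟩ | ⟨i, j, rfl⟩ | ⟨i, j, rfl⟩ | ⟨i, j, k, hk, rfl⟩
    · exact (not_zt_vx i hv).elim
    · exact (not_zt_vy h i hv).elim
    · exact (not_zt_vl i hv).elim
    · exact (not_zt_va h i j hv).elim
    · exact ⟨i, j, rfl⟩
    · exact (not_zt_vf h i j k hk hv).elim
  · rintro ⟨i, j, rfl⟩
    exact zt_vz h i j

/-! ### Cells, rows, columns -/

lemma at_va (h : Good q κ N) (i j : Fin N) : At (gr q κ N) (va q i j) :=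
  ⟨not_leaf_va i j, not_zt_va h i j, vz q i j, (adj_va _ _ _).2 (Or.inr (Or.inr (Or.inl rfl))), zt_vz h i j⟩

lemma not_at_vx (h : Good q κ N) (i : Fin N) : ¬ At (gr q κ N) (vx q i) := by
  rintro ⟨_, _, u, hu, hz⟩
  obtain ⟨j, rfl⟩ := (adj_vx _ _).1 hu
  exact not_zt_va h i j hz

lemma not_at_vy (h : Good q κ N) (i : Fin N) : ¬ At (gr q κ N) (vy q i) := by
  rintro ⟨_, _, u, hu, hz⟩
  rcases (adj_vy _ _).1 hu with ⟨j, rfl⟩ | rfl
  · exact not_zt_va h j i hz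
  · exact not_zt_vl i hz

theorem at_iff (h : Good q κ N) (v : Ver q N) : At (gr q κ N) v ↔
    ∃ i j : Fin N, v = Sum.inr (i, j, ⟨0, by omega⟩) := by
  constructor
  · intro hv
    rcases ver_cases v with ⟨i, rfl⟩ | ⟨i, rfl⟩ | ⟨i, rfl⟩ | ⟨i, j, rfl⟩ | ⟨i, j, rfl⟩ | ⟨i, j, k, hk, rfl⟩
    · exact (not_at_vx h i hv).elim
    · exact (not_at_vy h i hv).elim
    · exact (hv.1 (leaf_vl i)).elim
    · exact ⟨i, j, rfl⟩
    · exact (hv.2.1 (zt_vz h i j)).elim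
    · exact (hv.1 (leaf_vf i j k hk)).elim
  · rintro ⟨i, j, rfl⟩
    exact at_va h i j

lemma xt_vx (h : Good q κ N) (i : Fin N) : Xt (gr q κ N) (vx q i) := by
  refine ⟨not_leaf_vx h i, not_zt_vx i, not_at_vx h i, fun u hu => ?_⟩
  obtain ⟨j, rfl⟩ := (adj_vx _ _).1 hu
  exact not_leaf_va i j

lemma yt_vy (h : Good q κ N) (i : Fin N) : Yt (gr q κ N) (vy q i) :=
  ⟨not_leaf_vy i, not_zt_vy h i, not_at_vy h i, vl q i, (adj_vy _ _).2 (Or.inr rfl), leaf_vl i⟩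

theorem xt_iff (h : Good q κ N) (v : Ver q N) : Xt (gr q κ N) v ↔
    ∃ i : Fin N, v = Sum.inl (i, 0) := by
  constructor
  · intro hv
    rcases ver_cases v with ⟨i, rfl⟩ | ⟨i, rfl⟩ | ⟨i, rfl⟩ | ⟨i, j, rfl⟩ | ⟨i, j, rfl⟩ | ⟨i, j, k, hk, rfl⟩
    · exact ⟨i, rfl⟩
    · exact (hv.2.2.2 _ ((adj_vy _ _).2 (Or.inr rfl)) (leaf_vl i)).elim
    · exact (hv.1 (leaf_vl i)).elim
    · exact (hv.2.2.1 (at_va h i j)).elim
    · exact (hv.2.1 (zt_vz h i j)).elim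
    · exact (hv.1 (leaf_vf i j k hk)).elim
  · rintro ⟨i, rfl⟩
    exact xt_vx h i

theorem yt_iff (h : Good q κ N) (v : Ver q N) : Yt (gr q κ N) v ↔
    ∃ i : Fin N, v = Sum.inl (i, 1) := by
  constructor
  · intro hv
    rcases ver_cases v with ⟨i, rfl⟩ | ⟨i, rfl⟩ | ⟨i, rfl⟩ | ⟨i, j, rfl⟩ | ⟨i, j, rfl⟩ | ⟨i, j, k, hk, rfl⟩
    · obtain ⟨u, hu, hl⟩ := hv.2.2.2
      exact ((xt_vx h i).2.2.2 u hu hl).elim
    · exact ⟨i, rfl⟩
    · exact (hv.1 (leaf_vl i)).elim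
    · exact (hv.2.2.1 (at_va h i j)).elim
    · exact (hv.2.1 (zt_vz h i j)).elim
    · exact (hv.1 (leaf_vf i j k hk)).elim
  · rintro ⟨i, rfl⟩
    exact yt_vy h i

theorem cell_iff (h : Good q κ N) (x y a : Ver q N) : Cell (gr q κ N) x y a ↔
    ∃ i j : Fin N, x = Sum.inl (i, 0) ∧ y = Sum.inl (j, 1) ∧ a = Sum.inr (i, j, ⟨0, by omega⟩) := by
  constructor
  · rintro ⟨hx, hy, _, h1, h2⟩
    obtain ⟨i, rfl⟩ := (xt_iff h x).1 hx
    obtain ⟨j, rfl⟩ := (yt_iff h y).1 hy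
    obtain ⟨j', rfl⟩ := (adj_vx (κ := κ) i a).1 h1
    have h3 := (adj_vy (κ := κ) j (va q i j')).1 h2
    refine ⟨i, j, rfl, rfl, ?_⟩
    rcases h3 with ⟨i', h3⟩ | h3
    · simp only [va, Sum.inr.injEq, Prod.mk.injEq, and_true] at h3
      rw [h3.2]
      rfl
    · simp [va, vl] at h3
  · rintro ⟨i, j, rfl, rfl, rfl⟩
    exact ⟨xt_vx h i, yt_vy h j, at_va h i j, (adj_vx _ _).2 ⟨j, rfl⟩, (adj_vy _ _).2 (Or.inl ⟨i, rfl⟩)⟩

theorem col_iff (h : Good q κ N) (l : ℕ) (i j : Fin N) :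
    Col (gr q κ N) l (Sum.inr (i, j, ⟨0, by omega⟩)) ↔ l = κ i j := by
  have h1 := h.2 i j i.2 j.2
  have h2 : ∀ u : Ver q N, (gr q κ N 0 (va q i j) u ∧ Leaf (gr q κ N) u) ↔
      ∃ k : Fin (q + 3), 2 ≤ k.1 ∧ k.1 ≤ κ i j + 2 ∧ u = vf i j k := by
    intro u
    rw [adj_va]
    constructor
    · rintro ⟨rfl | rfl | rfl | h3, h4⟩
      · exact (not_leaf_vx h i h4).elim
      · exact (not_leaf_vy j h4).elim
      · exact (not_leaf_vz h i j h4).elim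
      · exact h3
    · rintro ⟨k, h3, h4, rfl⟩
      exact ⟨Or.inr (Or.inr (Or.inr ⟨k, h3, h4, rfl⟩)), leaf_vf i j k h3⟩
  have h3 : Nat.card {u : Ver q N // gr q κ N 0 (va q i j) u ∧ Leaf (gr q κ N) u} = κ i j + 1 := by
    have e : Fin (κ i j + 1) ≃ {u : Ver q N // gr q κ N 0 (va q i j) u ∧ Leaf (gr q κ N) u} := by
      refine Equiv.ofBijective (fun t => ⟨vf i j ⟨t.1 + 2, by omega⟩, (h2 _).2 ⟨⟨t.1 + 2, by omega⟩,
        by simp, by simp only; omega, rfl⟩⟩) ⟨?_, ?_⟩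
      · intro t t' ht
        have h4 := congrArg Subtype.val ht
        simp only [vf, Sum.inr.injEq, Prod.mk.injEq, Fin.mk.injEq, true_and] at h4
        exact Fin.ext (by omega)
      · rintro ⟨u, hu⟩
        obtain ⟨k, h4, h5, h6⟩ := (h2 u).1 hu
        refine ⟨⟨k.1 - 2, by omega⟩, ?_⟩
        apply Subtype.ext
        refine Eq.trans ?_ h6.symm
        simp only [vf, Sum.inr.injEq, Prod.mk.injEq, true_and]
        exact Fin.ext (by simp only; omega)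
    rw [← Nat.card_congr e]
    simp
  show Exactly (l + 1) (fun u => gr q κ N 0 (va q i j) u ∧ Leaf (gr q κ N) u) ↔ _
  rw [exactly_iff, h3]
  omega

end Pool.Agent.Helper20.OP.G
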